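import Mathlib

set_option autoImplicit false

/-!
# Hankel determinants of the polynomials `H_d(n, x)`

The Hankel matrix factors as `A B` with `A_{k,i} = binom(k,i) H_d(k-i,x)` lower unitriangular and
`B_{i,j} = i! [s^i] q_j(s)`, where `q_0 = 1` and `q_{j+1} = q_j' + (x + s^(d-1)) q_j`. Moreover
`q_j(s; x) = ∑_k binom(j,k) x^(j-k) q_k(s; 0)`, hence `det B` does not depend on `x`.
-/

namespace Pool.Agent.Results.MP_ecbd44_co.HankelDet

open Polynomial Finset

/-- `H_d(n, x)`: `x ^ n` for `n < d` and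
`x H_d(n-1, x) + (n-1)(n-2)⋯(n-d+1) H_d(n-d, x)` for `n ≥ d` (`d ≥ 1`). -/
noncomputable def H (d : ℕ) (n : ℕ) : ℤ[X] :=
  if _h : n < d ∨ d = 0 then X ^ n
  else X * H d (n - 1) + ((n - 1).descFactorial (d - 1) : ℤ[X]) * H d (n - d)
termination_by n
decreasing_by all_goals omega

/-- The `n × n` Hankel matrix of the sequence `H_d(·, x)`. -/
noncomputable def hankel (d n : ℕ) : Matrix (Fin n) (Fin n) ℤ[X] :=
  Matrix.of fun i j => H d ((i : ℕ) + (j : ℕ))

theorem H_zero (d : ℕ) (hd : 1 ≤ d) : H d 0 = 1 := by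
  rw [H, dif_pos (by omega), pow_zero]

/-- uniform recursion, `e = d - 1` -/
theorem H_succ (e n : ℕ) :
    H (e + 1) (n + 1) = X * H (e + 1) n + (n.descFactorial e : ℤ[X]) * H (e + 1) (n - e) := by
  by_cases h : n < e
  · rw [H, dif_pos (by omega), Nat.descFactorial_of_lt h, H, dif_pos (by omega), pow_succ]
    simp [mul_comm]
  · rw [H, dif_neg (by omega)]
    simp only [Nat.add_sub_cancel]
    rw [show n + 1 - (e + 1) = n - e by omega]

/-- `c e j i = [s^i] q_j(s; 0)` -/
def c (e : ℕ) : ℕ → ℕ → ℤ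
  | 0, i => if i = 0 then 1 else 0
  | (j + 1), i => ((i : ℤ) + 1) * c e j (i + 1) + if e ≤ i then c e j (i - e) else 0

/-- `b e j i = [s^i] q_j(s; x)` -/
noncomputable def b (e : ℕ) : ℕ → ℕ → ℤ[X]
  | 0, i => if i = 0 then 1 else 0
  | (j + 1), i => ((i : ℤ[X]) + 1) * b e j (i + 1) + X * b e j i +
    if e ≤ i then b e j (i - e) else 0

theorem b_eq (e j i : ℕ) :
    b e j i = ∑ k ∈ range (j + 1), (j.choose k : ℤ[X]) * X ^ (j - k) * (c e k i : ℤ[X]) := by
  induction j generalizing i with
  | zero => by_cases h : i = 0 <;> simp [b, c, h]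
  | succ j ih =>
    have h1 : b e (j + 1) i = ∑ k ∈ range (j + 1), (j.choose k : ℤ[X]) * X ^ (j - k) *
        ((c e (k + 1) i : ℤ[X]) + X * (c e k i : ℤ[X])) := by
      rw [b, ih, ih, ih, mul_sum, mul_sum]
      by_cases he : e ≤ i
      · rw [if_pos he, ← sum_add_distrib, ← sum_add_distrib]
        refine sum_congr rfl fun k _ => ?_
        rw [c, if_pos he]
        push_cast
        ring
      · rw [if_neg he, add_zero, ← sum_add_distrib]
        refine sum_congr rfl fun k _ => ?_
        rw [c, if_neg he]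
        push_cast
        ring
    have h2 : ∑ k ∈ range (j + 1), (j.choose k : ℤ[X]) * X ^ (j - k) *
        ((c e (k + 1) i : ℤ[X]) + X * (c e k i : ℤ[X])) =
        ∑ k ∈ range (j + 1), (j.choose k : ℤ[X]) * X ^ (j - k) * (c e (k + 1) i : ℤ[X]) +
        ∑ k ∈ range (j + 1), (j.choose k : ℤ[X]) * X ^ (j + 1 - k) * (c e k i : ℤ[X]) := by
      rw [← sum_add_distrib]
      refine sum_congr rfl fun k hk => ?_
      rw [mem_range] at hk
      rw [show j + 1 - k = (j - k) + 1 by omega, pow_succ]
      ring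
    have h3 : ∑ k ∈ range (j + 1), (j.choose k : ℤ[X]) * X ^ (j + 1 - k) * (c e k i : ℤ[X]) =
        ∑ k ∈ range (j + 1), (j.choose (k + 1) : ℤ[X]) * X ^ (j + 1 - (k + 1)) *
          (c e (k + 1) i : ℤ[X]) + (j.choose 0 : ℤ[X]) * X ^ (j + 1 - 0) * (c e 0 i : ℤ[X]) := by
      rw [← sum_range_succ' (fun k => (j.choose k : ℤ[X]) * X ^ (j + 1 - k) *
        (c e k i : ℤ[X])), sum_range_succ _ (j + 1), Nat.choose_succ_self]
      simp
    rw [h1, h2, h3, sum_range_succ' _ (j + 1), ← add_assoc, ← sum_add_distrib]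
    congr 1
    · refine sum_congr rfl fun k _ => ?_
      rw [Nat.choose_succ_succ, show j + 1 - (k + 1) = j - k by omega]
      push_cast
      ring
    · simp

theorem sum_eq_of_lt {f : ℕ → ℤ[X]} {k N : ℕ} (hf : ∀ i, k < i → f i = 0) (hN : k < N) :
    ∑ i ∈ range N, f i = ∑ i ∈ range (k + 1), f i := by
  obtain ⟨m, rfl⟩ := Nat.exists_eq_add_of_lt hN
  rw [show k + m + 1 = (k + 1) + m by ring, sum_range_add]
  rw [sum_eq_zero (s := range m) fun i _ => hf _ (by omega), add_zero]

/-- The factorisation of the Hankel matrix. -/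
theorem hankel_entry (e j : ℕ) : ∀ k N : ℕ, k < N → H (e + 1) (k + j) =
    ∑ i ∈ range N, (k.descFactorial i : ℤ[X]) * H (e + 1) (k - i) * b e j i := by
  induction j with
  | zero =>
    intro k N hN
    rw [sum_eq_single 0]
    · simp [b]
    · intro i _ hi
      simp [b, hi]
    · intro h
      rw [mem_range] at h
      omega
  | succ j ih =>
    intro k N hN
    have hz : ∀ i, k < i → (k.descFactorial i : ℤ[X]) = 0 := by
      intro i hi
      rw [Nat.descFactorial_of_lt hi, Nat.cast_zero]
    -- left-hand side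
    have hL : H (e + 1) (k + (j + 1)) =
        ∑ i ∈ range (k + 1), ((i : ℤ[X]) + 1) * (k.descFactorial i : ℤ[X]) *
          H (e + 1) (k - i) * b e j (i + 1) +
        ∑ i ∈ range (k + 1), (k.descFactorial i : ℤ[X]) * H (e + 1) (k - i + 1) * b e j i := by
      rw [show k + (j + 1) = (k + 1) + j by ring, ih (k + 1) (k + 2) (by omega),
        sum_range_succ' _ (k + 1)]
      have h1 : ∑ i ∈ range (k + 1), (k.descFactorial i : ℤ[X]) * H (e + 1) (k - i + 1) *
          b e j i = ∑ i ∈ range (k + 1), (k.descFactorial (i + 1) : ℤ[X]) *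
            H (e + 1) (k - i) * b e j (i + 1) + (k.descFactorial 0 : ℤ[X]) *
            H (e + 1) (k - 0 + 1) * b e j 0 := by
        rw [sum_range_succ' _ k, sum_range_succ _ k, hz (k + 1) (by omega), zero_mul, zero_mul,
          add_zero]
        congr 1
        refine sum_congr rfl fun i hi => ?_
        rw [mem_range] at hi
        rw [show k - (i + 1) + 1 = k - i by omega]
      rw [h1, ← add_assoc, ← sum_add_distrib]
      congr 1
      · refine sum_congr rfl fun i hi => ?_
        rw [mem_range] at hi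
        rw [Nat.succ_descFactorial_succ, Nat.descFactorial_succ,
          show k + 1 - (i + 1) = k - i by omega]
        have h2 : ((k + 1 : ℕ) : ℤ[X]) = ((k - i : ℕ) : ℤ[X]) + ((i : ℤ[X]) + 1) := by
          have : k + 1 = (k - i) + (i + 1) := by omega
          conv_lhs => rw [this]
          push_cast
          ring
        rw [Nat.cast_mul, Nat.cast_mul, h2]
        ring
    have hR : ∑ i ∈ range N, (k.descFactorial i : ℤ[X]) * H (e + 1) (k - i) * b e (j + 1) i =
        ∑ i ∈ range (k + 1), ((i : ℤ[X]) + 1) * (k.descFactorial i : ℤ[X]) *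
          H (e + 1) (k - i) * b e j (i + 1) +
        (∑ i ∈ range (k + 1), (k.descFactorial i : ℤ[X]) * (X * H (e + 1) (k - i)) * b e j i +
        ∑ i ∈ range (e + (k + 1)), (k.descFactorial i : ℤ[X]) * H (e + 1) (k - i) *
          (if e ≤ i then b e j (i - e) else 0)) := by
      rw [sum_eq_of_lt (f := fun i => (k.descFactorial i : ℤ[X]) * H (e + 1) (k - i) *
        b e (j + 1) i) (k := k) (fun i hi => by simp only [hz i hi, zero_mul]) hN]
      rw [sum_eq_of_lt (f := fun i => (k.descFactorial i : ℤ[X]) * H (e + 1) (k - i) *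
          (if e ≤ i then b e j (i - e) else 0)) (k := k) (N := e + (k + 1))
          (fun i hi => by simp only [hz i hi, zero_mul]) (by omega)]
      rw [← sum_add_distrib, ← sum_add_distrib]
      refine sum_congr rfl fun i _ => ?_
      rw [b]
      ring
    have hT : ∑ i ∈ range (e + (k + 1)), (k.descFactorial i : ℤ[X]) * H (e + 1) (k - i) *
          (if e ≤ i then b e j (i - e) else 0) =
        ∑ m ∈ range (k + 1), (k.descFactorial m : ℤ[X]) *
          (((k - m).descFactorial e : ℤ[X]) * H (e + 1) (k - m - e)) * b e j m := by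
      rw [sum_range_add]
      rw [sum_eq_zero (s := range e), zero_add]
      · refine sum_congr rfl fun m _ => ?_
        rw [if_pos (by omega), show e + m - e = m by omega, show k - (e + m) = k - m - e by omega]
        have h1 := Nat.descFactorial_mul_descFactorial (k := m) (m := e + m) (n := k) (by omega)
        rw [show e + m - m = e by omega] at h1
        rw [← h1]
        push_cast
        ring
      · intro i hi
        rw [mem_range] at hi
        rw [if_neg (by omega), mul_zero]
    rw [hL, hR, hT, ← sum_add_distrib (s := range (k + 1)) (f := fun i =>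
      (k.descFactorial i : ℤ[X]) * (X * H (e + 1) (k - i)) * b e j i)]
    congr 1
    refine sum_congr rfl fun i _ => ?_
    rw [H_succ]
    ring

/-- **Theorem.** For all `d ≥ 2` and `n ≥ 1` the Hankel determinant `det [H_d(i+j, x)]_{i,j<n}` is a
constant integer, divisible by `∏_{i<n} i!`. -/
theorem result (d n : ℕ) (hd : 2 ≤ d) (_hn : 1 ≤ n) :
    ∃ z : ℤ, (hankel d n).det = C z ∧ (∏ i ∈ range n, (i.factorial : ℤ)) ∣ z := by
  obtain ⟨e, rfl⟩ : ∃ e, d = e + 1 := ⟨d - 1, by omega⟩
  let A : Matrix (Fin n) (Fin n) ℤ[X] :=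
    Matrix.of fun k i => ((k : ℕ).choose i : ℤ[X]) * H (e + 1) (k - i)
  let D : Matrix (Fin n) (Fin n) ℤ[X] := Matrix.diagonal fun i => ((i : ℕ).factorial : ℤ[X])
  let B0 : Matrix (Fin n) (Fin n) ℤ := Matrix.of fun i j => c e j i
  let U : Matrix (Fin n) (Fin n) ℤ[X] :=
    Matrix.of fun k j => ((j : ℕ).choose k : ℤ[X]) * X ^ ((j : ℕ) - k)
  have hb : ∀ i j : Fin n, b e j i = ∑ k : Fin n, (c e k i : ℤ[X]) *
      (((j : ℕ).choose k : ℤ[X]) * X ^ ((j : ℕ) - k)) := by
    intro i j
    rw [b_eq, ← sum_eq_of_lt (f := fun k => (((j : ℕ).choose k : ℕ) : ℤ[X]) * X ^ ((j : ℕ) - k) *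
      (c e k i : ℤ[X])) (k := j) (N := n) (fun k hk => by
        simp only [Nat.choose_eq_zero_of_lt hk, Nat.cast_zero, zero_mul]) j.2,
      ← Fin.sum_univ_eq_sum_range]
    refine sum_congr rfl fun k _ => ?_
    ring
  have hfact : hankel (e + 1) n = A * (D * (B0.map (C : ℤ →+* ℤ[X]) * U)) := by
    ext1 k j
    rw [Matrix.mul_apply]
    have hD : ∀ i j, (D * (B0.map (C : ℤ →+* ℤ[X]) * U)) i j = ((i : ℕ).factorial : ℤ[X]) *
        (B0.map (C : ℤ →+* ℤ[X]) * U) i j := fun i j => Matrix.diagonal_mul _ _ _ _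
    simp only [hD]
    simp only [hankel, Matrix.of_apply, A, Matrix.mul_apply, B0, U, Matrix.map_apply]
    rw [hankel_entry e j k n k.2, ← Fin.sum_univ_eq_sum_range (fun i =>
      (((k : ℕ).descFactorial i : ℕ) : ℤ[X]) * H (e + 1) (k - i) * b e j i)]
    refine sum_congr rfl fun i _ => ?_
    rw [hb, Nat.descFactorial_eq_factorial_mul_choose]
    simp only [eq_intCast]
    push_cast
    ring
  have hA : A.det = 1 := by
    rw [Matrix.det_of_isLowerTriangular]
    · refine prod_eq_one fun i _ => ?_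
      simp [A, H_zero]
    · intro i j hij
      have : (i : ℕ) < j := by simpa using hij
      simp [A, Nat.choose_eq_zero_of_lt this]
  have hU : U.det = 1 := by
    rw [Matrix.det_of_isUpperTriangular]
    · refine prod_eq_one fun i _ => ?_
      simp [U]
    · intro i j hij
      have : (j : ℕ) < i := by simpa using hij
      simp [U, Nat.choose_eq_zero_of_lt this]
  refine ⟨(∏ i : Fin n, ((i : ℕ).factorial : ℤ)) * B0.det, ?_, ?_⟩
  · rw [hfact, Matrix.det_mul, Matrix.det_mul, Matrix.det_mul, hA, hU, Matrix.det_diagonal,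
      one_mul, mul_one, map_mul, map_prod, RingHom.map_det]
    congr 1
  · rw [Fin.prod_univ_eq_prod_range (fun i => (i.factorial : ℤ))]
    exact dvd_mul_right _ _

end Pool.Agent.Results.MP_ecbd44_co.HankelDet
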